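import Pool.Agent.H925.EO.Upper

/-!
# Dense graphs contain complete bipartite graphs; the subquadratic bound
-/

set_option autoImplicit false

namespace Pool.Agent.H925.EO

open SimpleGraph Finset

/-- Dense graphs contain complete bipartite subgraphs. -/
theorem kst (T K : ℕ) (ε : ℝ) (hε : 0 < ε) : ∃ N : ℕ, ∀ n : ℕ, N ≤ n → ∀ G : SimpleGraph (Fin n),
    ε * (n : ℝ) ^ 2 < (G.edgeSet.ncard : ℝ) →
    ∃ S : Finset (Fin n), S.card = T ∧ ∃ Y : Finset (Fin n), K ≤ Y.card ∧
      ∀ x ∈ S, ∀ y ∈ Y, G.Adj x y := by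
  classical
  obtain ⟨N, hN⟩ := exists_nat_gt (max 1 (max (2 * T / ε) (K / (ε * (ε / 2) ^ T))))
  refine ⟨N, ?_⟩
  intro n hn G hG
  have hnN : (N : ℝ) ≤ n := by exact_mod_cast hn
  have hn1 : (1 : ℝ) < n := lt_of_lt_of_le (lt_of_le_of_lt (le_max_left _ _) hN) hnN
  have hn2 : 2 * T / ε < n := lt_of_lt_of_le (lt_of_le_of_lt
    ((le_max_left _ _).trans (le_max_right _ _)) hN) hnN
  have hn3 : K / (ε * (ε / 2) ^ T) < n := lt_of_lt_of_le (lt_of_le_of_lt
    ((le_max_right _ _).trans (le_max_right _ _)) hN) hnN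
  by_contra hcon
  push Not at hcon
  -- every T-set has fewer than K common neighbours
  have hfew : ∀ S ∈ powersetCard T (univ : Finset (Fin n)),
      (univ.filter (fun y => ∀ x ∈ S, G.Adj x y)).card ≤ K := by
    intro S hS
    rw [mem_powersetCard] at hS
    by_contra hlt
    push Not at hlt
    obtain ⟨x, hx, y, hy, hxy⟩ := hcon S hS.2 _ hlt.le
    exact hxy ((mem_filter.1 hy).2 x hx)
  have hdc := Finset.sum_card_bipartiteAbove_eq_sum_card_bipartiteBelow
    (s := powersetCard T (univ : Finset (Fin n))) (t := (univ : Finset (Fin n)))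
    (fun S y => ∀ x ∈ S, G.Adj x y)
  have hup : ∑ S ∈ powersetCard T (univ : Finset (Fin n)),
      (bipartiteAbove (fun (S : Finset (Fin n)) y => ∀ x ∈ S, G.Adj x y) univ S).card
        ≤ n.choose T * K := by
    calc _ ≤ ∑ S ∈ powersetCard T (univ : Finset (Fin n)), K := by
            apply Finset.sum_le_sum
            intro S hS
            exact hfew S hS
      _ = n.choose T * K := by
            rw [sum_const, card_powersetCard, card_univ, Fintype.card_fin, smul_eq_mul]
  have hlow : ∀ y : Fin n,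
      (bipartiteBelow (fun (S : Finset (Fin n)) y => ∀ x ∈ S, G.Adj x y)
        (powersetCard T (univ : Finset (Fin n))) y).card = (G.degree y).choose T := by
    intro y
    rw [← G.card_neighborFinset_eq_degree, ← card_powersetCard]
    congr 1
    ext S
    simp only [bipartiteBelow, mem_filter, mem_powersetCard, subset_univ, true_and]
    constructor
    · rintro ⟨h1, h2⟩
      refine ⟨?_, h1⟩
      intro x hx
      rw [mem_neighborFinset]
      exact (h2 x hx).symm
    · rintro ⟨h1, h2⟩
      refine ⟨h2, ?_⟩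
      intro x hx
      have := h1 hx
      rw [mem_neighborFinset] at this
      exact this.symm
  -- many vertices of large degree
  set H := (univ : Finset (Fin n)).filter (fun y => ε * n ≤ (G.degree y : ℝ)) with hH
  have hncard : (G.edgeSet.ncard : ℝ) = (G.edgeFinset.card : ℝ) := by
    rw [Set.ncard_eq_toFinset_card']
    rfl
  have hsumdeg : ∑ v, (G.degree v : ℝ) = 2 * (G.edgeFinset.card : ℝ) := by
    have := G.sum_degrees_eq_twice_card_edges
    exact_mod_cast this
  have hsplit : ∑ v, (G.degree v : ℝ) ≤ H.card * n + n * (ε * n) := by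
    rw [← Finset.sum_filter_add_sum_filter_not univ (fun y => ε * n ≤ (G.degree y : ℝ))]
    apply add_le_add
    · calc ∑ x ∈ H, (G.degree x : ℝ) ≤ ∑ x ∈ H, (n : ℝ) := by
            apply Finset.sum_le_sum
            intro x _
            have := (G.degree_lt_card_verts x).le
            rw [Fintype.card_fin] at this
            exact_mod_cast this
        _ = H.card * n := by rw [sum_const, nsmul_eq_mul]
    · calc ∑ x ∈ univ.filter (fun y => ¬ ε * n ≤ (G.degree y : ℝ)), (G.degree x : ℝ)
            ≤ ∑ x ∈ univ.filter (fun y => ¬ ε * n ≤ (G.degree y : ℝ)), (ε * n) := by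
            apply Finset.sum_le_sum
            intro x hx
            rw [mem_filter] at hx
            linarith [hx.2]
        _ ≤ n * (ε * n) := by
            rw [sum_const, nsmul_eq_mul]
            apply mul_le_mul_of_nonneg_right
            · have := Finset.card_filter_le (univ : Finset (Fin n))
                (fun y => ¬ ε * n ≤ (G.degree y : ℝ))
              rw [card_univ, Fintype.card_fin] at this
              exact_mod_cast this
            · positivity
  have hHcard : ε * n ≤ H.card := by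
    rw [hsumdeg, ← hncard] at hsplit
    have hpos : (0 : ℝ) < n := by linarith
    by_contra hlt
    push Not at hlt
    have h4 : (H.card : ℝ) * n < ε * n * n := mul_lt_mul_of_pos_right hlt hpos
    nlinarith [hG, hsplit, h4]
  -- lower bound for the binomials
  have hch : ∀ y ∈ H, (ε * n / 2) ^ T / (T.factorial : ℝ) ≤ ((G.degree y).choose T : ℝ) := by
    intro y hy
    rw [hH, mem_filter] at hy
    refine le_trans ?_ (Nat.pow_le_choose (α := ℝ) T (G.degree y))
    apply div_le_div_of_nonneg_right _ (by positivity)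
    rw [div_lt_iff₀ hε] at hn2
    have h5 : ε * n / 2 ≤ ((G.degree y + 1 - T : ℕ) : ℝ) := by
      have h6' : G.degree y + 1 ≤ (G.degree y + 1 - T) + T := by omega
      have h6 : ((G.degree y + 1 : ℕ) : ℝ) ≤ ((G.degree y + 1 - T : ℕ) : ℝ) + T := by
        exact_mod_cast h6'
      push_cast at h6
      linarith [hy.2]
    exact pow_le_pow_left₀ (by positivity) h5 T
  have hfin : (H.card : ℝ) * ((ε * n / 2) ^ T / (T.factorial : ℝ)) ≤
      ((n : ℝ) ^ T / (T.factorial : ℝ)) * K := by
    calc (H.card : ℝ) * ((ε * n / 2) ^ T / (T.factorial : ℝ))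
        = ∑ y ∈ H, (ε * n / 2) ^ T / (T.factorial : ℝ) := by rw [sum_const, nsmul_eq_mul]
      _ ≤ ∑ y ∈ H, ((G.degree y).choose T : ℝ) := Finset.sum_le_sum hch
      _ ≤ ∑ y, ((G.degree y).choose T : ℝ) := by
          apply Finset.sum_le_sum_of_subset_of_nonneg (Finset.subset_univ _)
          intro i _ _
          positivity
      _ ≤ (n.choose T : ℝ) * K := by
          rw [hdc] at hup
          simp only [hlow] at hup
          exact_mod_cast hup
      _ ≤ ((n : ℝ) ^ T / (T.factorial : ℝ)) * K := by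
          apply mul_le_mul_of_nonneg_right (Nat.choose_le_pow_div T n) (by positivity)
  have hfac : (0 : ℝ) < T.factorial := by positivity
  have hnT : (0 : ℝ) < (n : ℝ) ^ T := by positivity
  have h7 : (H.card : ℝ) * ((ε * n / 2) ^ T) ≤ (n : ℝ) ^ T * K := by
    have := mul_le_mul_of_nonneg_right hfin hfac.le
    calc (H.card : ℝ) * ((ε * n / 2) ^ T)
        = (H.card : ℝ) * ((ε * n / 2) ^ T / (T.factorial : ℝ)) * (T.factorial : ℝ) := by
          field_simp
      _ ≤ ((n : ℝ) ^ T / (T.factorial : ℝ)) * K * (T.factorial : ℝ) := this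
      _ = (n : ℝ) ^ T * K := by field_simp
  have h8 : ε * n * (ε / 2) ^ T ≤ K := by
    have h9 : (ε * n / 2) ^ T = (ε / 2) ^ T * (n : ℝ) ^ T := by
      rw [← mul_pow]; congr 1; ring
    rw [h9] at h7
    have h10 : ε * n * ((ε / 2) ^ T * (n : ℝ) ^ T) ≤ (n : ℝ) ^ T * K :=
      le_trans (mul_le_mul_of_nonneg_right hHcard (by positivity)) h7
    have h11 : (ε * n * (ε / 2) ^ T) * (n : ℝ) ^ T ≤ K * (n : ℝ) ^ T := by
      calc (ε * n * (ε / 2) ^ T) * (n : ℝ) ^ T = ε * n * ((ε / 2) ^ T * (n : ℝ) ^ T) := by ring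
        _ ≤ (n : ℝ) ^ T * K := h10
        _ = K * (n : ℝ) ^ T := by ring
    exact le_of_mul_le_mul_right h11 hnT
  rw [div_lt_iff₀ (by positivity)] at hn3
  nlinarith [hn3, h8]

/-- The subquadratic bound. -/
theorem littleo (ε : ℝ) (hε : 0 < ε) : ∃ N : ℕ, ∀ n : ℕ, N ≤ n →
    ∀ (G : SimpleGraph (Fin n)) (M : Sym2 (Fin n) → ℕ), Set.InjOn M G.edgeSet →
      ¬ Cont G M → (G.edgeSet.ncard : ℝ) ≤ ε * (n : ℝ) ^ 2 := by
  obtain ⟨N, hN⟩ := kst 7 (5040 * 102 + 1) ε hε
  refine ⟨N, ?_⟩
  intro n hn G M hM hcon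
  by_contra hlt
  push Not at hlt
  obtain ⟨S, hS, Y, hY, hadj⟩ := hN n hn G hlt
  apply hcon
  let e := S.orderEmbOfFin hS
  exact cont_bip G M hM (fun i => e i) e.injective Y
    (fun i y hy => hadj (e i) (Finset.orderEmbOfFin_mem S hS i) y hy) (by omega)

end Pool.Agent.H925.EO
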