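import Pool.Agent.H925.EO.Host
import Pool.Agent.H925.EO.Kst

/-!
# Counting and the superpolylogarithmic lower bound
-/

set_option autoImplicit false

namespace Pool.Agent.H925.EO

open SimpleGraph Finset Filter

/-- Number of vertices of the host. -/
def nn (b : ℕ) : ℕ := q b * mm b ^ b + (mm b + q b) ^ b * q b

theorem card_V (b : ℕ) : Fintype.card (RR b ⊕ CC b) = nn b := by
  rw [Fintype.card_sum, Fintype.card_prod, Fintype.card_prod, card_SS, card_XX, card_YY]
  rfl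

/-- Numbering of the vertices. -/
noncomputable def eV (b : ℕ) : (RR b ⊕ CC b) ≃ Fin (nn b) := Fintype.equivFinOfCardEq (card_V b)

/-- The host on `Fin`. -/
noncomputable def hG (b : ℕ) : SimpleGraph (Fin (nn b)) := (bg b).comap (eV b).symm

/-- The host labels on `Fin`. -/
noncomputable def hM (b : ℕ) : Sym2 (Fin (nn b)) → ℕ := fun z => bM b (Sym2.map (eV b).symm z)

theorem hM_mk (b : ℕ) (u v : Fin (nn b)) :
    hM b s(u, v) = bM b s((eV b).symm u, (eV b).symm v) := rfl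

theorem hM_inj (b : ℕ) : Set.InjOn (hM b) (hG b).edgeSet := by
  intro e he f hf h
  have he' : Sym2.map (eV b).symm e ∈ (bg b).edgeSet := by
    induction e using Sym2.ind with
    | _ u v => exact he
  have hf' : Sym2.map (eV b).symm f ∈ (bg b).edgeSet := by
    induction f using Sym2.ind with
    | _ u v => exact hf
  exact Sym2.map.injective (eV b).symm.injective (bM_inj he' hf' h)

theorem h_avoid (b : ℕ) : ¬ Cont (hG b) (hM b) := by
  intro h
  obtain ⟨v, hv, h01, h12, h23, h34, h45, h56, k1, k2, k3, k4, k5⟩ := of_cont _ _ h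
  exact host_avoid (fun i => (eV b).symm (v i)) ((eV b).symm.injective.comp hv)
    h01 h12 h23 h34 h45 h56 k1 k2 k3 k4 k5

/-- The column joined to a row with given 0-1 vector. -/
noncomputable def colOf {b : ℕ} (r : RR b) (t : SS b) : CC b :=
  (fun i => ⟨(r.2 i : ℕ) + if r.1 i = t i then 0 else g r.1, by
    have h1 := (r.2 i).isLt
    have h2 := g_le r.1
    have h3 := g_pos r.1
    split_ifs <;> omega⟩, t)

theorem I_colOf {b : ℕ} (r : RR b) (t : SS b) : I r (colOf r t) := by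
  intro i
  rfl

theorem edges_ge (b : ℕ) : q b * mm b ^ b * q b ≤ (hG b).edgeSet.ncard := by
  classical
  let f : RR b × SS b → Sym2 (Fin (nn b)) := fun p =>
    s(eV b (Sum.inl p.1), eV b (Sum.inr (colOf p.1 p.2)))
  have hf : Function.Injective f := by
    rintro ⟨r, t⟩ ⟨r', t'⟩ h
    simp only [f] at h
    rw [Sym2.eq_iff] at h
    rcases h with ⟨h1, h2⟩ | ⟨h1, h2⟩
    · have e1 : r = r' := Sum.inl.inj ((eV b).injective h1)
      have e2 : colOf r t = colOf r' t' := Sum.inr.inj ((eV b).injective h2)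
      have e3 : t = t' := congrArg Prod.snd e2
      rw [e1, e3]
    · exact absurd ((eV b).injective h1) (by simp)
  have hsub : Set.range f ⊆ (hG b).edgeSet := by
    rintro _ ⟨p, rfl⟩
    rw [mem_edgeSet]
    show (bg b).Adj _ _
    rw [Equiv.symm_apply_apply, Equiv.symm_apply_apply]
    exact I_colOf p.1 p.2
  have h1 := Set.ncard_le_ncard hsub (Set.toFinite _)
  rw [← Set.image_univ, Set.ncard_image_of_injective _ hf, Set.ncard_univ,
    Nat.card_eq_fintype_card, Fintype.card_prod, Fintype.card_prod, card_SS, card_XX] at h1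
  exact h1

theorem pow_bound (b : ℕ) : ((mm b + q b : ℕ) : ℝ) ^ b ≤ 3 * (mm b : ℝ) ^ b := by
  have hm : (mm b : ℝ) = (2 : ℝ) ^ b * (2 : ℝ) ^ b := by
    unfold mm
    push_cast
    rw [← mul_pow]; norm_num
  have hq : (q b : ℝ) = (2 : ℝ) ^ b := by unfold q; push_cast; rfl
  have h2 : (0 : ℝ) < (2 : ℝ) ^ b := by positivity
  have h1 : ((mm b + q b : ℕ) : ℝ) = (mm b : ℝ) * (1 + 1 / (2 : ℝ) ^ b) := by
    push_cast
    rw [hm, hq]
    field_simp
  rw [h1, mul_pow, mul_comm]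
  apply mul_le_mul_of_nonneg_right _ (by positivity)
  have h3 : 1 + 1 / (2 : ℝ) ^ b ≤ Real.exp (1 / (2 : ℝ) ^ b) := by
    have := Real.add_one_le_exp (1 / (2 : ℝ) ^ b)
    linarith
  calc (1 + 1 / (2 : ℝ) ^ b) ^ b ≤ (Real.exp (1 / (2 : ℝ) ^ b)) ^ b :=
        pow_le_pow_left₀ (by positivity) h3 b
    _ = Real.exp (b * (1 / (2 : ℝ) ^ b)) := by rw [Real.exp_nat_mul]
    _ ≤ Real.exp 1 := by
        apply Real.exp_le_exp.2
        rw [mul_one_div, div_le_one h2]
        have : b < 2 ^ b := Nat.lt_two_pow_self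
        exact_mod_cast this.le
    _ ≤ 3 := by
        have := Real.exp_one_lt_d9
        linarith

theorem nn_le (b : ℕ) : (nn b : ℝ) ≤ 4 * ((q b : ℝ) * (mm b : ℝ) ^ b) := by
  unfold nn
  have h := pow_bound b
  have hq : (0 : ℝ) ≤ q b := by positivity
  have h2 := mul_le_mul_of_nonneg_right h hq
  push_cast at h2 ⊢
  nlinarith [h2]

theorem nn_pos (b : ℕ) : 2 ≤ nn b := by
  have h1 : 1 ≤ q b := Nat.one_le_two_pow
  have h2 : 1 ≤ mm b ^ b := Nat.one_le_pow _ _ (Nat.pow_pos (by norm_num))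
  have h3 : 1 ≤ (mm b + q b) ^ b := Nat.one_le_pow _ _ (by omega)
  have h4 : 1 * 1 ≤ q b * mm b ^ b := Nat.mul_le_mul h1 h2
  have h5 : 1 * 1 ≤ (mm b + q b) ^ b * q b := Nat.mul_le_mul h3 h1
  unfold nn
  omega

theorem log_nn_le (b : ℕ) (hb : 1 ≤ b) : Real.log (nn b) ≤ 5 * (b : ℝ) ^ 2 := by
  have hpos : (0 : ℝ) < nn b := by
    have := nn_pos b
    exact_mod_cast (by omega : 0 < nn b)
  have h1 : Real.log (nn b) ≤ Real.log (4 * ((q b : ℝ) * (mm b : ℝ) ^ b)) :=
    Real.log_le_log hpos (nn_le b)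
  have h2 : (4 * ((q b : ℝ) * (mm b : ℝ) ^ b)) = (2 : ℝ) ^ (2 + b + 2 * b * b) := by
    have hq : (q b : ℝ) = (2 : ℝ) ^ b := by unfold q; push_cast; rfl
    have hm : (mm b : ℝ) = (2 : ℝ) ^ (2 * b) := by
      unfold mm
      push_cast
      rw [pow_mul]; norm_num
    rw [hq, hm, ← pow_mul, pow_add, pow_add]
    norm_num
    ring
  rw [h2, Real.log_pow] at h1
  have h3 : Real.log 2 ≤ 1 := by
    have := Real.log_two_lt_d9
    linarith
  have hb' : (1 : ℝ) ≤ b := by exact_mod_cast hb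
  push_cast at h1
  have h4 : (2 + (b : ℝ) + 2 * b * b) * Real.log 2 ≤ (2 + (b : ℝ) + 2 * b * b) * 1 :=
    mul_le_mul_of_nonneg_left h3 (by positivity)
  nlinarith [h1, h4, hb']

/-- No polylogarithmic bound. -/
theorem no_polylog : ¬ ∃ (c : ℕ) (C : ℝ), ∀ n : ℕ, 2 ≤ n →
    ∀ (G : SimpleGraph (Fin n)) (M : Sym2 (Fin n) → ℕ), Set.InjOn M G.edgeSet →
      ¬ Cont G M → (G.edgeSet.ncard : ℝ) ≤ C * (n : ℝ) * (Real.log (n : ℝ)) ^ c := by
  rintro ⟨c, C, h⟩
  -- the key inequality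
  have key : ∀ b : ℕ, 1 ≤ b → (2 : ℝ) ^ b ≤ 4 * |C| * 5 ^ c * (b : ℝ) ^ (2 * c) := by
    intro b hb
    have h1 := h (nn b) (nn_pos b) (hG b) (hM b) (hM_inj b) (h_avoid b)
    have h2 : ((q b * mm b ^ b * q b : ℕ) : ℝ) ≤ ((hG b).edgeSet.ncard : ℝ) := by
      exact_mod_cast edges_ge b
    have hn : (0 : ℝ) < nn b := by
      have := nn_pos b
      exact_mod_cast (by omega : 0 < nn b)
    have hlog0 : 0 ≤ Real.log (nn b) := by
      apply Real.log_nonneg
      have := nn_pos b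
      exact_mod_cast (by omega : 1 ≤ nn b)
    have h3 : (Real.log (nn b)) ^ c ≤ (5 * (b : ℝ) ^ 2) ^ c :=
      pow_le_pow_left₀ hlog0 (log_nn_le b hb) c
    have h4 : C * (nn b : ℝ) * (Real.log (nn b)) ^ c ≤
        |C| * (nn b : ℝ) * (5 * (b : ℝ) ^ 2) ^ c := by
      calc C * (nn b : ℝ) * (Real.log (nn b)) ^ c
          ≤ |C| * (nn b : ℝ) * (Real.log (nn b)) ^ c := by
            apply mul_le_mul_of_nonneg_right _ (pow_nonneg hlog0 c)
            exact mul_le_mul_of_nonneg_right (le_abs_self C) hn.le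
        _ ≤ |C| * (nn b : ℝ) * (5 * (b : ℝ) ^ 2) ^ c := by
            apply mul_le_mul_of_nonneg_left h3
            positivity
    have h5 := nn_le b
    have hA : (0 : ℝ) < (q b : ℝ) * (mm b : ℝ) ^ b := by
      have e1 : 0 < q b := Nat.pow_pos (by norm_num)
      have e2 : 0 < mm b := Nat.pow_pos (by norm_num)
      positivity
    have h6 : ((q b : ℝ) * (mm b : ℝ) ^ b) * q b ≤
        |C| * (4 * ((q b : ℝ) * (mm b : ℝ) ^ b)) * (5 * (b : ℝ) ^ 2) ^ c := by
      push_cast at h2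
      refine (h2.trans (h1.trans h4)).trans ?_
      apply mul_le_mul_of_nonneg_right _ (by positivity)
      exact mul_le_mul_of_nonneg_left h5 (abs_nonneg C)
    have h7 : (q b : ℝ) * ((q b : ℝ) * (mm b : ℝ) ^ b) ≤
        (4 * |C| * (5 * (b : ℝ) ^ 2) ^ c) * ((q b : ℝ) * (mm b : ℝ) ^ b) := by
      calc (q b : ℝ) * ((q b : ℝ) * (mm b : ℝ) ^ b)
          = ((q b : ℝ) * (mm b : ℝ) ^ b) * q b := by ring
        _ ≤ |C| * (4 * ((q b : ℝ) * (mm b : ℝ) ^ b)) * (5 * (b : ℝ) ^ 2) ^ c := h6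
        _ = _ := by ring
    have h8 := le_of_mul_le_mul_right h7 hA
    have hq : (q b : ℝ) = (2 : ℝ) ^ b := by unfold q; push_cast; rfl
    rw [hq, mul_pow, ← pow_mul] at h8
    calc (2 : ℝ) ^ b ≤ _ := h8
      _ = _ := by ring
  -- contradiction
  have hlim := tendsto_pow_const_div_const_pow_of_one_lt (2 * c) (one_lt_two : (1 : ℝ) < 2)
  have hpos : (0 : ℝ) < 1 / (4 * |C| * 5 ^ c + 1) := by positivity
  have hev := (hlim.eventually_lt_const hpos).and (eventually_ge_atTop 1)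
  obtain ⟨b, hb1, hb2⟩ := hev.exists
  have hk := key b hb2
  have h2 : (0 : ℝ) < (2 : ℝ) ^ b := by positivity
  rw [div_lt_div_iff₀ h2 (by positivity)] at hb1
  have hbp : (0 : ℝ) < (b : ℝ) ^ (2 * c) := by
    have : (0 : ℝ) < b := by exact_mod_cast hb2
    positivity
  nlinarith [hb1, hk, hbp]

end Pool.Agent.H925.EO
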