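import Mathlib

/-!
# The edge-ordered path P_7 with ranks 4,1,2,5,6,3

The path has vertices `0,...,6` and edges `{i,i+1}`; the ranks of the six edges read along the
path are 4, 1, 2, 5, 6, 3.
-/

set_option autoImplicit false

namespace Pool.Agent.H925.EO

open SimpleGraph

/-- Underlying graph: the path on seven vertices. -/
def F : SimpleGraph (Fin 7) := pathGraph 7

/-- Rank of the edge whose endpoints have the given sum. -/
def tab : ℕ → ℕ := fun s =>
  if s = 1 then 4 else if s = 3 then 1 else if s = 5 then 2 else if s = 7 then 5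
  else if s = 9 then 6 else if s = 11 then 3 else 0

/-- The edge order. -/
def L : Sym2 (Fin 7) → ℕ :=
  Sym2.lift ⟨fun i j => tab (i.val + j.val), fun i j => by
    show tab (i.val + j.val) = tab (j.val + i.val)
    rw [add_comm]⟩

/-- The ranks read along the path. -/
def ell : Fin 6 → ℕ := ![4, 1, 2, 5, 6, 3]

theorem F_adj {a b : Fin 7} : F.Adj a b ↔ a.val + 1 = b.val ∨ b.val + 1 = a.val := by
  rw [F, pathGraph_adj]

theorem mem_edge {e : Sym2 (Fin 7)} : e ∈ F.edgeSet ↔ ∃ i : Fin 6, e = s(i.castSucc, i.succ) := by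
  constructor
  · induction e using Sym2.ind with
    | _ a b =>
      intro h
      rw [mem_edgeSet, F_adj] at h
      rcases h with h | h
      · refine ⟨⟨a.val, by omega⟩, ?_⟩
        rw [Sym2.eq_iff]; left
        constructor
        · ext; simp
        · ext; simp [← h]
      · refine ⟨⟨b.val, by omega⟩, ?_⟩
        rw [Sym2.eq_iff]; right
        constructor
        · ext; simp [← h]
        · ext; simp
  · rintro ⟨i, rfl⟩
    rw [mem_edgeSet, F_adj]
    left; simp

theorem L_edge (i : Fin 6) : L s(i.castSucc, i.succ) = ell i := by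
  fin_cases i <;> rfl

theorem ell_inj : Function.Injective ell := by decide

theorem L_injOn : Set.InjOn L F.edgeSet := by
  intro e he f hf h
  obtain ⟨i, rfl⟩ := mem_edge.1 he
  obtain ⟨j, rfl⟩ := mem_edge.1 hf
  rw [L_edge, L_edge] at h
  rw [ell_inj h]

theorem F_acyclic : F.IsAcyclic := by
  have hconn : F.Connected := pathGraph_connected 6
  have hcard : Nat.card F.edgeSet = 6 := by
    have : F.edgeSet = Set.range (fun i : Fin 6 => s(i.castSucc, i.succ)) := by
      ext e
      rw [mem_edge]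
      simp [eq_comm]
    rw [this]
    have hinj : Function.Injective (fun i : Fin 6 => (s(i.castSucc, i.succ) : Sym2 (Fin 7))) := by
      intro i j h
      have h2 : L s(i.castSucc, i.succ) = L s(j.castSucc, j.succ) := congrArg L h
      rw [L_edge, L_edge] at h2
      exact ell_inj h2
    rw [Nat.card_congr (Equiv.ofInjective _ hinj).symm]
    simp
  exact (isTree_iff_connected_and_card.2 ⟨hconn, by rw [hcard]; simp⟩).2

/-- `(G, M)` contains the edge-ordered path. -/
def Cont {n : ℕ} (G : SimpleGraph (Fin n)) (M : Sym2 (Fin n) → ℕ) : Prop :=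
  ∃ φ : Fin 7 ↪ Fin n, (∀ a b, F.Adj a b → G.Adj (φ a) (φ b)) ∧
    ∀ e ∈ F.edgeSet, ∀ f ∈ F.edgeSet, L e < L f →
      M (Sym2.map (⇑φ) e) < M (Sym2.map (⇑φ) f)

/-- Sufficient condition: an injective sequence of seven vertices with the six comparisons. -/
theorem cont_of {n : ℕ} (G : SimpleGraph (Fin n)) (M : Sym2 (Fin n) → ℕ) (v : Fin 7 → Fin n)
    (hv : Function.Injective v) (hadj : ∀ i : Fin 6, G.Adj (v i.castSucc) (v i.succ))
    (h12 : M s(v 1, v 2) < M s(v 2, v 3)) (h25 : M s(v 2, v 3) < M s(v 5, v 6))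
    (h50 : M s(v 5, v 6) < M s(v 0, v 1)) (h03 : M s(v 0, v 1) < M s(v 3, v 4))
    (h34 : M s(v 3, v 4) < M s(v 4, v 5)) : Cont G M := by
  refine ⟨⟨v, hv⟩, ?_, ?_⟩
  · intro a b hab
    rw [F_adj] at hab
    rcases hab with hab | hab
    · have := hadj ⟨a.val, by omega⟩
      have e1 : (⟨a.val, by omega⟩ : Fin 6).castSucc = a := by ext; simp
      have e2 : (⟨a.val, by omega⟩ : Fin 6).succ = b := by ext; simp [← hab]
      rw [e1, e2] at this
      exact this
    · have := hadj ⟨b.val, by omega⟩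
      have e1 : (⟨b.val, by omega⟩ : Fin 6).castSucc = b := by ext; simp
      have e2 : (⟨b.val, by omega⟩ : Fin 6).succ = a := by ext; simp [← hab]
      rw [e1, e2] at this
      exact this.symm
  · intro e he f hf hef
    obtain ⟨i, rfl⟩ := mem_edge.1 he
    obtain ⟨j, rfl⟩ := mem_edge.1 hf
    rw [L_edge, L_edge] at hef
    rw [Sym2.map_mk, Sym2.map_mk]
    simp only [Function.Embedding.coeFn_mk]
    have key : ∀ i j : Fin 6, ell i < ell j →
        M s(v i.castSucc, v i.succ) < M s(v j.castSucc, v j.succ) := by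
      have w0 : M s(v (Fin.castSucc (0 : Fin 6)), v (Fin.succ (0 : Fin 6))) = M s(v 0, v 1) := rfl
      have w1 : M s(v (Fin.castSucc (1 : Fin 6)), v (Fin.succ (1 : Fin 6))) = M s(v 1, v 2) := rfl
      have w2 : M s(v (Fin.castSucc (2 : Fin 6)), v (Fin.succ (2 : Fin 6))) = M s(v 2, v 3) := rfl
      have w3 : M s(v (Fin.castSucc (3 : Fin 6)), v (Fin.succ (3 : Fin 6))) = M s(v 3, v 4) := rfl
      have w4 : M s(v (Fin.castSucc (4 : Fin 6)), v (Fin.succ (4 : Fin 6))) = M s(v 4, v 5) := rfl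
      have w5 : M s(v (Fin.castSucc (5 : Fin 6)), v (Fin.succ (5 : Fin 6))) = M s(v 5, v 6) := rfl
      intro i j
      fin_cases i <;> fin_cases j <;>
        first
        | (intro h; exact absurd h (by decide))
        | (intro _; simp only [Fin.zero_eta, Fin.mk_one, Fin.reduceFinMk, w0, w1, w2, w3, w4, w5]; omega)
    exact key i j hef

/-- Consequences of containment. -/
theorem of_cont {n : ℕ} (G : SimpleGraph (Fin n)) (M : Sym2 (Fin n) → ℕ) (h : Cont G M) :
    ∃ v : Fin 7 → Fin n, Function.Injective v ∧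
      G.Adj (v 0) (v 1) ∧ G.Adj (v 1) (v 2) ∧ G.Adj (v 2) (v 3) ∧ G.Adj (v 3) (v 4) ∧
      G.Adj (v 4) (v 5) ∧ G.Adj (v 5) (v 6) ∧
      M s(v 1, v 2) < M s(v 2, v 3) ∧ M s(v 2, v 3) < M s(v 5, v 6) ∧
      M s(v 5, v 6) < M s(v 0, v 1) ∧ M s(v 0, v 1) < M s(v 3, v 4) ∧
      M s(v 3, v 4) < M s(v 4, v 5) := by
  obtain ⟨φ, hadj, hord⟩ := h
  have key : ∀ i j : Fin 6, ell i < ell j →
      M s(φ i.castSucc, φ i.succ) < M s(φ j.castSucc, φ j.succ) := by
    intro i j hij
    have := hord s(i.castSucc, i.succ) (mem_edge.2 ⟨i, rfl⟩) s(j.castSucc, j.succ)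
      (mem_edge.2 ⟨j, rfl⟩) (by rw [L_edge, L_edge]; exact hij)
    rw [Sym2.map_mk, Sym2.map_mk] at this
    exact this
  refine ⟨φ, φ.injective, hadj 0 1 (by rw [F_adj]; decide), hadj 1 2 (by rw [F_adj]; decide),
    hadj 2 3 (by rw [F_adj]; decide), hadj 3 4 (by rw [F_adj]; decide),
    hadj 4 5 (by rw [F_adj]; decide), hadj 5 6 (by rw [F_adj]; decide), ?_, ?_, ?_, ?_, ?_⟩
  · exact key 1 2 (by decide)
  · exact key 2 5 (by decide)
  · exact key 5 0 (by decide)
  · exact key 0 3 (by decide)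
  · exact key 3 4 (by decide)

end Pool.Agent.H925.EO
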