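import Pool.Agent.H925.EO.Defs

/-!
# The host graphs

Rows are pairs `(s, x)` with `s` a 0-1 vector of length `b` and `x` a vector of digits below `m`;
columns are pairs `(y, t)`.  The row `(s, x)` is joined to `(y, t)` when `y i = x i` for the
coordinates with `s i = t i` and `y i = x i + g s` for the others.
-/

set_option autoImplicit false

namespace Pool.Agent.H925.EO

open SimpleGraph Finset

section lex

theorem sandwich {b k : ℕ} {x y z : Fin b → Fin k} (hxy : toLex x ≤ toLex y)
    (hyz : toLex y ≤ toLex z) (i : Fin b) (h : ∀ j < i, x j = z j) :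
    (∀ j < i, x j = y j) ∧ x i ≤ y i ∧ y i ≤ z i := by
  have h1 : ∀ j, j < i → x j = y j := by
    intro j
    induction j using WellFoundedLT.induction with
    | _ j ih =>
      intro hj
      have a1 : x j ≤ y j := Pi.apply_le_of_toLex hxy (fun l hl => ih l hl (hl.trans hj))
      have a2 : y j ≤ z j := Pi.apply_le_of_toLex hyz
        (fun l hl => by rw [← ih l hl (hl.trans hj)]; exact h l (hl.trans hj))
      rw [← h j hj] at a2
      exact le_antisymm a1 a2
  refine ⟨h1, Pi.apply_le_of_toLex hxy h1, Pi.apply_le_of_toLex hyz ?_⟩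
  intro j hj
  rw [← h1 j hj]
  exact h j hj

end lex

section host
variable (b : ℕ)

/-- Number of 0-1 vectors. -/
def q : ℕ := 2 ^ b
/-- Number of digits. -/
def mm : ℕ := 4 ^ b

/-- 0-1 vectors. -/
abbrev SS := Fin b → Bool
/-- Row digit vectors. -/
abbrev XX := Fin b → Fin (mm b)
/-- Column digit vectors. -/
abbrev YY := Fin b → Fin (mm b + q b)
/-- Rows. -/
abbrev RR := SS b × XX b
/-- Columns. -/
abbrev CC := YY b × SS b

theorem card_SS : Fintype.card (SS b) = q b := by simp [q]
theorem card_XX : Fintype.card (XX b) = mm b ^ b := by simp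
theorem card_YY : Fintype.card (YY b) = (mm b + q b) ^ b := by simp

/-- Numbering of 0-1 vectors. -/
noncomputable def eS : SS b ≃ Fin (q b) := Fintype.equivFinOfCardEq (card_SS b)
/-- Numbering of row digit vectors. -/
noncomputable def eX : XX b ≃ Fin (mm b ^ b) := Fintype.equivFinOfCardEq (card_XX b)
/-- Numbering of column digit vectors in lexicographic order. -/
noncomputable def eY : Lex (YY b) ≃o Fin ((mm b + q b) ^ b) :=
  (Fintype.orderIsoFinOfCardEq (Lex (YY b)) (card_YY b)).symm

variable {b}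

/-- The shift. -/
noncomputable def g (s : SS b) : ℕ := q b - (eS b s).val

theorem g_pos (s : SS b) : 1 ≤ g s := by
  have := (eS b s).isLt
  unfold g; omega

theorem g_le (s : SS b) : g s ≤ q b := by
  unfold g; omega

theorem g_inj {s s' : SS b} (h : g s = g s') : s = s' := by
  have h1 := (eS b s).isLt
  have h2 := (eS b s').isLt
  unfold g at h
  apply (eS b).injective
  ext
  omega

/-- Incidence. -/
def I (r : RR b) (c : CC b) : Prop :=
  ∀ i, (c.1 i : ℕ) = (r.2 i : ℕ) + if r.1 i = c.2 i then 0 else g r.1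

/-- Row rank. -/
noncomputable def rowRank (r : RR b) : ℕ := (eS b r.1).val * (mm b ^ b) + (eX b r.2).val

/-- Column rank. -/
noncomputable def colRank (c : CC b) : ℕ := (eY b (toLex c.1)).val * q b + (eS b c.2).val

/-- The number of rows. -/
def B (b : ℕ) : ℕ := q b * mm b ^ b

theorem rowRank_lt (r : RR b) : rowRank r < B b := by
  have h1 := (eS b r.1).isLt
  have h2 := (eX b r.2).isLt
  unfold rowRank B
  calc (eS b r.1).val * (mm b ^ b) + (eX b r.2).val
      < (eS b r.1).val * (mm b ^ b) + mm b ^ b := by omega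
    _ = ((eS b r.1).val + 1) * (mm b ^ b) := by ring
    _ ≤ q b * mm b ^ b := Nat.mul_le_mul_right _ h1

theorem divmod {a a' k l l' : ℕ} (hl : l < k) (hl' : l' < k) (h : a * k + l = a' * k + l') :
    a = a' ∧ l = l' := by
  have hk : 0 < k := by omega
  have h1 : (a * k + l) / k = a := by
    rw [mul_comm, Nat.mul_add_div hk, Nat.div_eq_of_lt hl, add_zero]
  have h2 : (a' * k + l') / k = a' := by
    rw [mul_comm, Nat.mul_add_div hk, Nat.div_eq_of_lt hl', add_zero]
  have h3 : a = a' := by rw [← h1, h, h2]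
  subst h3
  exact ⟨rfl, by omega⟩

theorem divle {a a' k l l' : ℕ} (hl' : l' < k) (h : a * k + l ≤ a' * k + l') :
    a ≤ a' := by
  by_contra hlt
  push Not at hlt
  have : (a' + 1) * k ≤ a * k := Nat.mul_le_mul_right _ hlt
  rw [Nat.succ_mul] at this
  omega

theorem rowRank_inj {r r' : RR b} (h : rowRank r = rowRank r') : r = r' := by
  obtain ⟨h1, h2⟩ := divmod (eX b r.2).isLt (eX b r'.2).isLt h
  ext1
  · exact (eS b).injective (Fin.ext h1)
  · exact (eX b).injective (Fin.ext h2)

theorem colRank_inj {c c' : CC b} (h : colRank c = colRank c') : c = c' := by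
  obtain ⟨h1, h2⟩ := divmod (eS b c.2).isLt (eS b c'.2).isLt h
  ext1
  · have := (eY b).injective (Fin.ext h1)
    exact toLex.injective this
  · exact (eS b).injective (Fin.ext h2)

theorem colRank_le {c c' : CC b} (h : colRank c ≤ colRank c') : toLex c.1 ≤ toLex c'.1 := by
  have := divle (eS b c'.2).isLt h
  exact (eY b).le_iff_le.1 this

theorem rowRank_le {r r' : RR b} (h : rowRank r ≤ rowRank r') : g r'.1 ≤ g r.1 := by
  have := divle (eX b r'.2).isLt h
  unfold g
  omega

/-- Two columns of one row. -/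
theorem two_cols {r : RR b} {c c' : CC b} (h : I r c) (h' : I r c') (i : Fin b) :
    (c.2 i = c'.2 i ∧ c.1 i = c'.1 i) ∨
    ((c.1 i : ℕ) = c'.1 i + g r.1) ∨ ((c'.1 i : ℕ) = c.1 i + g r.1) := by
  have h1 := h i
  have h2 := h' i
  by_cases e1 : r.1 i = c.2 i
  · by_cases e2 : r.1 i = c'.2 i
    · left
      refine ⟨e1.symm.trans e2, ?_⟩
      rw [if_pos e1] at h1
      rw [if_pos e2] at h2
      apply Fin.ext
      omega
    · right; right
      rw [if_pos e1] at h1
      rw [if_neg e2] at h2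
      omega
  · by_cases e2 : r.1 i = c'.2 i
    · right; left
      rw [if_neg e1] at h1
      rw [if_pos e2] at h2
      omega
    · left
      constructor
      · revert e1 e2
        cases r.1 i <;> cases c.2 i <;> cases c'.2 i <;> simp
      · rw [if_neg e1] at h1
        rw [if_neg e2] at h2
        apply Fin.ext
        omega

/-- Two rows in one column with the same 0-1 vector agree. -/
theorem two_rows {r r' : RR b} {c : CC b} (h : I r c) (h' : I r' c) (hs : r.1 = r'.1) : r = r' := by
  ext1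
  · exact hs
  · funext i
    have h1 := h i
    have h2 := h' i
    rw [← hs] at h2
    apply Fin.ext
    omega

/-- The forbidden configuration does not occur. -/
theorem core {r1 r2 r3 : RR b} {c1 c2 c3 c4 : CC b} (h11 : I r1 c1) (h21 : I r2 c1)
    (h32 : I r3 c2) (h13 : I r1 c3) (h24 : I r2 c4) (h34 : I r3 c4)
    (hr : rowRank r1 < rowRank r2) (hr23 : r2 ≠ r3) (hc : c1 ≠ c4)
    (c12 : colRank c1 ≤ colRank c2) (c23 : colRank c2 ≤ colRank c3)
    (c34 : colRank c3 ≤ colRank c4) : False := by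
  have l12 := colRank_le c12
  have l23 := colRank_le c23
  have l34 := colRank_le c34
  have hy : c1.1 ≠ c4.1 := by
    intro he
    apply hc
    ext1
    · exact he
    · funext i
      rcases two_cols h21 h24 i with h | h | h
      · exact h.1
      · exfalso
        have := g_pos r2.1
        rw [he] at h
        omega
      · exfalso
        have := g_pos r2.1
        rw [he] at h
        omega
  have hlt : toLex c1.1 < toLex c4.1 := by
    apply lt_of_le_of_ne ((l12.trans l23).trans l34)
    intro h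
    exact hy (toLex.injective h)
  obtain ⟨i, hi1, hi2⟩ : ∃ i, (∀ j < i, c1.1 j = c4.1 j) ∧ c1.1 i < c4.1 i := hlt
  have e4 : (c4.1 i : ℕ) = c1.1 i + g r2.1 := by
    have hi3 : (c1.1 i : ℕ) < c4.1 i := hi2
    rcases two_cols h21 h24 i with h | h | h
    · exfalso
      rw [h.2] at hi3
      omega
    · omega
    · exact h
  obtain ⟨a1, a2, a3⟩ := sandwich (l12.trans l23) l34 i hi1
  have a2' : (c1.1 i : ℕ) ≤ c3.1 i := a2
  have a3' : (c3.1 i : ℕ) ≤ c4.1 i := a3
  have e3 : c1.1 i = c3.1 i := by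
    rcases two_cols h11 h13 i with h | h | h
    · exact h.2
    · have := g_pos r1.1
      exfalso
      omega
    · exfalso
      have g1 := rowRank_le hr.le
      have g2 : g r1.1 = g r2.1 := by omega
      have := two_rows h11 h21 (g_inj g2)
      rw [this] at hr
      exact lt_irrefl _ hr
  obtain ⟨b1, b2, b3⟩ := sandwich l12 l23 i a1
  have b2' : (c1.1 i : ℕ) ≤ c2.1 i := b2
  have b3' : (c2.1 i : ℕ) ≤ c3.1 i := b3
  rw [← e3] at b3'
  have hg := g_pos r2.1
  rcases two_cols h32 h34 i with h | h | h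
  · have := congrArg Fin.val h.2
    omega
  · omega
  · have g3 : g r3.1 = g r2.1 := by omega
    exact hr23 (two_rows h24 h34 (g_inj g3.symm))

/-- The bipartite graph. -/
def bg (b : ℕ) : SimpleGraph (RR b ⊕ CC b) where
  Adj u v := match u, v with
    | Sum.inl r, Sum.inr c => I r c
    | Sum.inr c, Sum.inl r => I r c
    | _, _ => False
  symm := ⟨by
    rintro (r | c) (r' | c') h
    · exact h
    · exact h
    · exact h
    · exact h⟩
  loopless := ⟨by
    rintro (r | c) h
    · exact h
    · exact h⟩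

/-- The edge labels. -/
noncomputable def bM (b : ℕ) : Sym2 (RR b ⊕ CC b) → ℕ :=
  Sym2.lift ⟨fun u v => match u, v with
    | Sum.inl r, Sum.inr c => colRank c * B b + rowRank r
    | Sum.inr c, Sum.inl r => colRank c * B b + rowRank r
    | _, _ => 0, by
    rintro (r | c) (r' | c')
    · rfl
    · rfl
    · rfl
    · rfl⟩

theorem bM_lr (r : RR b) (c : CC b) : bM b s(Sum.inl r, Sum.inr c) = colRank c * B b + rowRank r :=
  rfl

theorem bM_rl (r : RR b) (c : CC b) : bM b s(Sum.inr c, Sum.inl r) = colRank c * B b + rowRank r :=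
  rfl

theorem bg_edge {e : Sym2 (RR b ⊕ CC b)} (he : e ∈ (bg b).edgeSet) :
    ∃ r c, I r c ∧ e = s(Sum.inl r, Sum.inr c) := by
  induction e using Sym2.ind with
  | _ u v =>
    rw [mem_edgeSet] at he
    rcases u with r | c <;> rcases v with r' | c'
    · exact he.elim
    · exact ⟨r, c', he, rfl⟩
    · exact ⟨r', c, he, Sym2.eq_swap⟩
    · exact he.elim

theorem bM_inj : Set.InjOn (bM b) (bg b).edgeSet := by
  intro e he f hf h
  obtain ⟨r, c, _, rfl⟩ := bg_edge he
  obtain ⟨r', c', _, rfl⟩ := bg_edge hf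
  rw [bM_lr, bM_lr] at h
  obtain ⟨h1, h2⟩ := divmod (rowRank_lt r) (rowRank_lt r') h
  rw [colRank_inj h1, rowRank_inj h2]

/-- The neighbours of a row are columns. -/
theorem adj_l {r : RR b} {v : RR b ⊕ CC b} (h : (bg b).Adj (Sum.inl r) v) :
    ∃ c, v = Sum.inr c ∧ I r c := by
  rcases v with r' | c
  · exact h.elim
  · exact ⟨c, rfl, h⟩

/-- The neighbours of a column are rows. -/
theorem adj_r {c : CC b} {v : RR b ⊕ CC b} (h : (bg b).Adj (Sum.inr c) v) :
    ∃ r, v = Sum.inl r ∧ I r c := by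
  rcases v with r | c'
  · exact ⟨r, rfl, h⟩
  · exact h.elim

/-- The host avoids the edge-ordered path. -/
theorem host_avoid (u : Fin 7 → RR b ⊕ CC b) (hu : Function.Injective u)
    (h01 : (bg b).Adj (u 0) (u 1)) (h12 : (bg b).Adj (u 1) (u 2)) (h23 : (bg b).Adj (u 2) (u 3))
    (h34 : (bg b).Adj (u 3) (u 4)) (h45 : (bg b).Adj (u 4) (u 5)) (h56 : (bg b).Adj (u 5) (u 6))
    (k1 : bM b s(u 1, u 2) < bM b s(u 2, u 3)) (k2 : bM b s(u 2, u 3) < bM b s(u 5, u 6))
    (k3 : bM b s(u 5, u 6) < bM b s(u 0, u 1)) (k4 : bM b s(u 0, u 1) < bM b s(u 3, u 4))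
    (k5 : bM b s(u 3, u 4) < bM b s(u 4, u 5)) : False := by
  rcases hu2 : u 2 with γ1 | c1
  · -- roles reversed
    rw [hu2] at h12 h23
    obtain ⟨ρ1, e1, _⟩ := adj_l h12.symm
    obtain ⟨ρ2, e3, _⟩ := adj_l h23
    rw [e1] at h01
    rw [e3] at h34
    obtain ⟨γ3, e0, _⟩ := adj_r h01.symm
    obtain ⟨γ4, e4, _⟩ := adj_r h34
    rw [e4] at h45
    obtain ⟨ρ3, e5, _⟩ := adj_l h45
    rw [e5] at h56
    obtain ⟨γ2, e6, _⟩ := adj_r h56
    rw [e1, hu2, e3, bM_rl, bM_lr] at k1
    rw [hu2, e3, e5, e6, bM_lr, bM_rl] at k2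
    rw [e5, e6, e0, e1, bM_lr, bM_rl] at k3
    have l1 := divle (rowRank_lt _) k1.le
    have l2 := divle (rowRank_lt _) k2.le
    have l3 := divle (rowRank_lt _) k3.le
    have : ρ1 = ρ2 := colRank_inj (by omega)
    have h13 : u 1 = u 3 := by rw [e1, e3, this]
    exact absurd (hu h13) (by decide)
  · rw [hu2] at h12 h23
    obtain ⟨r1, e1, i11⟩ := adj_r h12.symm
    obtain ⟨r2, e3, i21⟩ := adj_r h23
    rw [e1] at h01
    rw [e3] at h34
    obtain ⟨c3, e0, i13⟩ := adj_l h01.symm
    obtain ⟨c4, e4, i24⟩ := adj_l h34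
    rw [e4] at h45
    obtain ⟨r3, e5, i34⟩ := adj_r h45
    rw [e5] at h56
    obtain ⟨c2, e6, i32⟩ := adj_l h56
    rw [e1, hu2, e3, bM_rl, bM_lr] at k1
    rw [hu2, e3, e5, e6, bM_rl, bM_lr] at k2
    rw [e5, e6, e0, e1, bM_lr, bM_rl] at k3
    rw [e0, e1, e3, e4, bM_lr, bM_rl] at k4
    rw [e3, e4, e5, bM_lr, bM_rl] at k5
    have l2 := divle (rowRank_lt _) k2.le
    have l3 := divle (rowRank_lt _) k3.le
    have l4 := divle (rowRank_lt _) k4.le
    refine core i11 i21 i32 i13 i24 i34 (by omega) ?_ ?_ l2 l3 l4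
    · rintro rfl
      have h35 : u 3 = u 5 := by rw [e3, e5]
      exact absurd (hu h35) (by decide)
    · rintro rfl
      have h24 : u 2 = u 4 := by rw [hu2, e4]
      exact absurd (hu h24) (by decide)

end host

end Pool.Agent.H925.EO
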