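import Pool.Agent.H925.EO.Defs

/-!
# Dense edge-ordered graphs contain the path

Every edge-ordered graph on `n` vertices with more than `ε n^2` edges contains the edge-ordered
path, for `n` large.
-/

set_option autoImplicit false

namespace Pool.Agent.H925.EO

open SimpleGraph Finset

/-- A piercing dichotomy for intervals. -/
theorem dich {α : Type*} [DecidableEq α] (K : ℕ) (a b : α → ℕ) :
    ∀ (m : ℕ) (Y : Finset α), (∀ y ∈ Y, a y ≤ b y) → m * K < Y.card →
      (∃ p : ℕ, ∃ Y' ⊆ Y, K ≤ Y'.card ∧ ∀ y ∈ Y', a y ≤ p ∧ p ≤ b y) ∨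
      ∃ l : List α, l.length = m + 1 ∧ (∀ y ∈ l, y ∈ Y) ∧ l.Pairwise (fun y z => b y < a z) := by
  intro m
  induction m with
  | zero =>
    intro Y _ hc
    right
    have hne : Y.Nonempty := by
      rw [← Finset.card_pos]; omega
    obtain ⟨y, hy⟩ := hne
    exact ⟨[y], by simp, by simpa using hy, by simp⟩
  | succ m ih =>
    intro Y hab hc
    have hne : Y.Nonempty := by
      rw [← Finset.card_pos]; exact lt_of_le_of_lt (Nat.zero_le _) hc
    obtain ⟨y0, hy0, hmin⟩ := Finset.exists_min_image Y b hne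
    by_cases hK : K ≤ (Y.filter (fun y => a y ≤ b y0)).card
    · left
      refine ⟨b y0, Y.filter (fun y => a y ≤ b y0), Finset.filter_subset _ _, hK, ?_⟩
      intro y hy
      rw [Finset.mem_filter] at hy
      exact ⟨hy.2, hmin y hy.1⟩
    · have hsplit := Finset.card_filter_add_card_filter_not (s := Y) (fun y => a y ≤ b y0)
      have hc2 : m * K < (Y.filter (fun y => ¬ a y ≤ b y0)).card := by
        rw [Nat.succ_mul] at hc
        omega
      rcases ih (Y.filter (fun y => ¬ a y ≤ b y0))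
        (fun y hy => hab y (Finset.mem_filter.1 hy).1) hc2 with h | h
      · left
        obtain ⟨p, Y', hY', h1, h2⟩ := h
        exact ⟨p, Y', hY'.trans (Finset.filter_subset _ _), h1, h2⟩
      · right
        obtain ⟨l, hl1, hl2, hl3⟩ := h
        refine ⟨y0 :: l, by simp [hl1], ?_, ?_⟩
        · intro y hy
          rw [List.mem_cons] at hy
          rcases hy with rfl | hy
          · exact hy0
          · exact (Finset.mem_filter.1 (hl2 y hy)).1
        · rw [List.pairwise_cons]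
          refine ⟨?_, hl3⟩
          intro z hz
          have := (Finset.mem_filter.1 (hl2 z hz)).2
          omega

section
variable {n : ℕ} (G : SimpleGraph (Fin n)) (M : Sym2 (Fin n) → ℕ)

/-- Weight of the edge between row `x i` and column `y`. -/
def w (x : Fin 7 → Fin n) (i : Fin 7) (y : Fin n) : ℕ := M s(x i, y)

theorem w_ne (hM : Set.InjOn M G.edgeSet) (x : Fin 7 → Fin n) (hx : Function.Injective x)
    (Y : Finset (Fin n)) (hY : ∀ i, ∀ y ∈ Y, G.Adj (x i) y) {i j : Fin 7} {y z : Fin n}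
    (hy : y ∈ Y) (hz : z ∈ Y) (h : i ≠ j ∨ y ≠ z) : w M x i y ≠ w M x j z := by
  intro he
  have := hM (by rw [mem_edgeSet]; exact hY i y hy) (by rw [mem_edgeSet]; exact hY j z hz) he
  rw [Sym2.eq_iff] at this
  rcases this with ⟨h1, h2⟩ | ⟨h1, h2⟩
  · rcases h with h | h
    · exact h (hx h1)
    · exact h h2
  · have := hY i z hz
    rw [h1] at this
    exact G.irrefl this

/-- Separated columns give the path. -/
theorem cont_cols (x : Fin 7 → Fin n) (hx : Function.Injective x)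
    (Y : Finset (Fin n)) (hY : ∀ i, ∀ y ∈ Y, G.Adj (x i) y) (a b c : Fin 7) (hab : a ≠ b)
    (hac : a ≠ c) (hbc : b ≠ c)
    (h1 : ∀ y ∈ Y, w M x a y < w M x b y) (h2 : ∀ y ∈ Y, w M x b y < w M x c y)
    (l : List (Fin n)) (hl : l.length = 3 + 1) (hlY : ∀ y ∈ l, y ∈ Y)
    (hp : l.Pairwise (fun y z => w M x c y < w M x a z)) : Cont G M := by
  obtain ⟨y1, y2, y3, y4, rfl⟩ : ∃ y1 y2 y3 y4, l = [y1, y2, y3, y4] := by
    match l, hl with
    | [y1, y2, y3, y4], _ => exact ⟨y1, y2, y3, y4, rfl⟩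
  have m1 : y1 ∈ Y := hlY _ (by simp)
  have m2 : y2 ∈ Y := hlY _ (by simp)
  have m3 : y3 ∈ Y := hlY _ (by simp)
  have m4 : y4 ∈ Y := hlY _ (by simp)
  simp only [List.pairwise_cons, List.mem_cons, List.not_mem_nil, or_false, forall_eq_or_imp,
    forall_eq, false_implies, implies_true, List.Pairwise.nil, and_true] at hp
  obtain ⟨⟨p12, p13, p14⟩, ⟨p23, p24⟩, p34⟩ := hp
  have A1 := h1 y1 m1
  have A2 := h1 y2 m2
  have A3 := h1 y3 m3
  have A4 := h1 y4 m4
  have B1 := h2 y1 m1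
  have B2 := h2 y2 m2
  have B3 := h2 y3 m3
  have B4 := h2 y4 m4
  -- distinctness
  have d12 : y1 ≠ y2 := by rintro rfl; omega
  have d13 : y1 ≠ y3 := by rintro rfl; omega
  have d14 : y1 ≠ y4 := by rintro rfl; omega
  have d23 : y2 ≠ y3 := by rintro rfl; omega
  have d24 : y2 ≠ y4 := by rintro rfl; omega
  have d34 : y3 ≠ y4 := by rintro rfl; omega
  have ea : x a ≠ x b := fun h => hab (hx h)
  have eb : x a ≠ x c := fun h => hac (hx h)
  have ec : x b ≠ x c := fun h => hbc (hx h)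
  have f : ∀ i, ∀ y ∈ Y, x i ≠ y := fun i y hy => (hY i y hy).ne
  have fa1 := f a y1 m1
  have fa2 := f a y2 m2
  have fa3 := f a y3 m3
  have fa4 := f a y4 m4
  have fb1 := f b y1 m1
  have fb2 := f b y2 m2
  have fb3 := f b y3 m3
  have fb4 := f b y4 m4
  have fc1 := f c y1 m1
  have fc2 := f c y2 m2
  have fc3 := f c y3 m3
  have fc4 := f c y4 m4
  refine cont_of G M ![y3, x a, y1, x b, y4, x c, y2] ?_ ?_ ?_ ?_ ?_ ?_ ?_
  · intro i j hij
    fin_cases i <;> fin_cases j <;> first | rfl | (exfalso; simp at hij; simp_all)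
  · intro i
    fin_cases i
    · exact (hY a y3 m3).symm
    · exact hY a y1 m1
    · exact (hY b y1 m1).symm
    · exact hY b y4 m4
    · exact (hY c y4 m4).symm
    · exact hY c y2 m2
  · show M s(x a, y1) < M s(y1, x b)
    rw [Sym2.eq_swap (a := y1)]
    exact A1
  · show M s(y1, x b) < M s(x c, y2)
    rw [Sym2.eq_swap (a := y1)]
    change w M x b y1 < w M x c y2
    omega
  · show M s(x c, y2) < M s(y3, x a)
    rw [Sym2.eq_swap (a := y3)]
    exact p23
  · show M s(y3, x a) < M s(x b, y4)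
    rw [Sym2.eq_swap (a := y3)]
    change w M x a y3 < w M x b y4
    omega
  · show M s(x b, y4) < M s(y4, x c)
    rw [Sym2.eq_swap (a := y4)]
    exact B4

/-- Separated rows give the path. -/
theorem cont_rows (hM : Set.InjOn M G.edgeSet) (x : Fin 7 → Fin n) (hx : Function.Injective x)
    (Y : Finset (Fin n)) (hY : ∀ i, ∀ y ∈ Y, G.Adj (x i) y) (hc : 3 ≤ Y.card)
    (p1 p2 p3 : ℕ)
    (h1 : ∀ y ∈ Y, w M x 0 y ≤ p1 ∧ p1 ≤ w M x 2 y)
    (h2 : ∀ y ∈ Y, w M x 2 y ≤ p2 ∧ p2 ≤ w M x 4 y)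
    (h3 : ∀ y ∈ Y, w M x 4 y ≤ p3 ∧ p3 ≤ w M x 6 y) : Cont G M := by
  classical
  have hne : Y.Nonempty := by rw [← Finset.card_pos]; omega
  obtain ⟨r3, m3, max3⟩ := Finset.exists_max_image Y (w M x 6) hne
  have hne2 : (Y.erase r3).Nonempty := by
    rw [← Finset.card_pos, Finset.card_erase_of_mem m3]; omega
  obtain ⟨r2, m2', max2⟩ := Finset.exists_max_image (Y.erase r3) (w M x 0) hne2
  have hne3 : ((Y.erase r3).erase r2).Nonempty := by
    rw [← Finset.card_pos, Finset.card_erase_of_mem m2', Finset.card_erase_of_mem m3]; omega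
  obtain ⟨r1, m1'⟩ := hne3
  have d12 : r1 ≠ r2 := (Finset.mem_erase.1 m1').1
  have m1'' := (Finset.mem_erase.1 m1').2
  have d13 : r1 ≠ r3 := (Finset.mem_erase.1 m1'').1
  have m1 : r1 ∈ Y := (Finset.mem_erase.1 m1'').2
  have d23 : r2 ≠ r3 := (Finset.mem_erase.1 m2').1
  have m2 : r2 ∈ Y := (Finset.mem_erase.1 m2').2
  have g12 : w M x 0 r1 < w M x 0 r2 :=
    lt_of_le_of_ne (max2 r1 m1'') (w_ne G M hM x hx Y hY m1 m2 (Or.inr d12))
  have g23 : w M x 6 r2 < w M x 6 r3 :=
    lt_of_le_of_ne (max3 r2 m2) (w_ne G M hM x hx Y hY m2 m3 (Or.inr d23))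
  have q1 : w M x 0 r2 < w M x 2 r3 :=
    lt_of_le_of_ne ((h1 r2 m2).1.trans (h1 r3 m3).2)
      (w_ne G M hM x hx Y hY m2 m3 (Or.inl (by decide)))
  have q2 : w M x 2 r3 < w M x 4 r1 :=
    lt_of_le_of_ne ((h2 r3 m3).1.trans (h2 r1 m1).2)
      (w_ne G M hM x hx Y hY m3 m1 (Or.inl (by decide)))
  have q3 : w M x 4 r1 < w M x 6 r2 :=
    lt_of_le_of_ne ((h3 r1 m1).1.trans (h3 r2 m2).2)
      (w_ne G M hM x hx Y hY m1 m2 (Or.inl (by decide)))
  have f : ∀ i, ∀ y ∈ Y, x i ≠ y := fun i y hy => (hY i y hy).ne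
  have e02 : x 0 ≠ x 2 := fun h => absurd (hx h) (by decide)
  have e04 : x 0 ≠ x 4 := fun h => absurd (hx h) (by decide)
  have e06 : x 0 ≠ x 6 := fun h => absurd (hx h) (by decide)
  have e24 : x 2 ≠ x 4 := fun h => absurd (hx h) (by decide)
  have e26 : x 2 ≠ x 6 := fun h => absurd (hx h) (by decide)
  have e46 : x 4 ≠ x 6 := fun h => absurd (hx h) (by decide)
  have f01 := f 0 r1 m1
  have f02 := f 0 r2 m2
  have f03 := f 0 r3 m3
  have f21 := f 2 r1 m1
  have f22 := f 2 r2 m2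
  have f23 := f 2 r3 m3
  have f41 := f 4 r1 m1
  have f42 := f 4 r2 m2
  have f43 := f 4 r3 m3
  have f61 := f 6 r1 m1
  have f62 := f 6 r2 m2
  have f63 := f 6 r3 m3
  refine cont_of G M ![x 4, r1, x 0, r2, x 6, r3, x 2] ?_ ?_ ?_ ?_ ?_ ?_ ?_
  · intro i j hij
    fin_cases i <;> fin_cases j <;> first | rfl | (exfalso; simp at hij; simp_all)
  · intro i
    fin_cases i
    · exact hY 4 r1 m1
    · exact (hY 0 r1 m1).symm
    · exact hY 0 r2 m2
    · exact (hY 6 r2 m2).symm
    · exact hY 6 r3 m3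
    · exact (hY 2 r3 m3).symm
  · show M s(r1, x 0) < M s(x 0, r2)
    rw [Sym2.eq_swap (a := r1)]
    exact g12
  · show M s(x 0, r2) < M s(r3, x 2)
    rw [Sym2.eq_swap (a := r3)]
    exact q1
  · show M s(r3, x 2) < M s(x 4, r1)
    rw [Sym2.eq_swap (a := r3)]
    exact q2
  · show M s(x 4, r1) < M s(r2, x 6)
    rw [Sym2.eq_swap (a := r2)]
    exact q3
  · show M s(r2, x 6) < M s(x 6, r3)
    rw [Sym2.eq_swap (a := r2)]
    exact g23

/-- Sorted rows with many columns give the path. -/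
theorem cont_sorted (hM : Set.InjOn M G.edgeSet) (x : Fin 7 → Fin n) (hx : Function.Injective x)
    (Y : Finset (Fin n)) (hY : ∀ i, ∀ y ∈ Y, G.Adj (x i) y)
    (hs : ∀ y ∈ Y, StrictMono (fun i => w M x i y)) (hc : 102 < Y.card) : Cont G M := by
  classical
  have lt : ∀ i j : Fin 7, i < j → ∀ y ∈ Y, w M x i y < w M x j y :=
    fun i j hij y hy => hs y hy hij
  rcases dich 34 (w M x 0) (w M x 2) 3 Y (fun y hy => (lt 0 2 (by decide) y hy).le)
    (by omega) with ⟨p1, Y1, s1, c1, h1⟩ | ⟨l, hl, hlY, hp⟩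
  swap
  · exact cont_cols G M x hx Y hY 0 1 2 (by decide) (by decide) (by decide)
      (lt 0 1 (by decide)) (lt 1 2 (by decide)) l hl hlY hp
  rcases dich 11 (w M x 2) (w M x 4) 3 Y1 (fun y hy => (lt 2 4 (by decide) y (s1 hy)).le)
    (by omega) with ⟨p2, Y2, s2, c2, h2⟩ | ⟨l, hl, hlY, hp⟩
  swap
  · exact cont_cols G M x hx Y hY 2 3 4 (by decide) (by decide) (by decide)
      (lt 2 3 (by decide)) (lt 3 4 (by decide)) l hl (fun y hy => s1 (hlY y hy)) hp
  rcases dich 3 (w M x 4) (w M x 6) 3 Y2 (fun y hy => (lt 4 6 (by decide) y (s1 (s2 hy))).le)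
    (by omega) with ⟨p3, Y3, s3, c3, h3⟩ | ⟨l, hl, hlY, hp⟩
  swap
  · exact cont_cols G M x hx Y hY 4 5 6 (by decide) (by decide) (by decide)
      (lt 4 5 (by decide)) (lt 5 6 (by decide)) l hl (fun y hy => s1 (s2 (hlY y hy))) hp
  exact cont_rows G M hM x hx Y3 (fun i y hy => hY i y (s1 (s2 (s3 hy)))) c3 p1 p2 p3
    (fun y hy => h1 y (s2 (s3 hy))) (fun y hy => h2 y (s3 hy)) h3

/-- A complete bipartite graph with 7 rows and many columns contains the path. -/
theorem cont_bip (hM : Set.InjOn M G.edgeSet) (x : Fin 7 → Fin n) (hx : Function.Injective x)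
    (Y : Finset (Fin n)) (hY : ∀ i, ∀ y ∈ Y, G.Adj (x i) y)
    (hc : 5040 * 102 < Y.card) : Cont G M := by
  classical
  obtain ⟨σ, _, hσ⟩ : ∃ σ ∈ (Finset.univ : Finset (Equiv.Perm (Fin 7))),
      102 < (Y.filter (fun y => Tuple.sort (fun i => w M x i y) = σ)).card := by
    apply Finset.exists_lt_card_fiber_of_mul_lt_card_of_maps_to
    · intro y _
      exact Finset.mem_univ _
    · rw [Finset.card_univ, Fintype.card_perm, Fintype.card_fin]
      have : Nat.factorial 7 = 5040 := by decide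
      rw [this]
      exact hc
  refine cont_sorted G M hM (x ∘ σ) (hx.comp σ.injective)
    (Y.filter (fun y => Tuple.sort (fun i => w M x i y) = σ))
    (fun i y hy => hY (σ i) y (Finset.mem_filter.1 hy).1) ?_ hσ
  intro y hy
  rw [Finset.mem_filter] at hy
  have hmono : Monotone ((fun i => w M x i y) ∘ σ) := by
    rw [← hy.2]
    exact Tuple.monotone_sort _
  have hinj : Function.Injective ((fun i => w M x i y) ∘ σ) := by
    apply Function.Injective.comp _ σ.injective
    intro i j hij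
    by_contra hne
    exact w_ne G M hM x hx Y hY hy.1 hy.1 (Or.inl hne) hij
  exact hmono.strictMono_of_injective hinj

end

end Pool.Agent.H925.EO
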